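import Mathlib

namespace Pool.Agent.Results.MP_425159_co.Parity

open Equiv

/-- A quasigroup operation: `a x = b` and `x a = b` have exactly one solution each. -/
def IsQuasigroup {S : Type} (op : S → S → S) : Prop :=
  ∀ a b, (∃! x, op a x = b) ∧ ∃! x, op x a = b

theorem result (S : Type) [Fintype S] (op : S → S → S) (hq : IsQuasigroup op)
    (hE : ∀ x y, op (op (op x y) x) y = x) :
    Fintype.card S % 4 = 0 ∨ Fintype.card S % 4 = 1 := by
  classical
  have hF : Function.Bijective (fun p : S × S => (p.1, op p.1 p.2)) := by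
    apply Finite.injective_iff_bijective.1
    rintro ⟨a, b⟩ ⟨c, d⟩ h
    obtain ⟨rfl, h2⟩ := Prod.mk.inj h
    exact Prod.ext rfl ((hq a (op a d)).1.unique h2 rfl)
  have hG : Function.Bijective (fun p : S × S => (op p.1 p.2, p.2)) := by
    apply Finite.injective_iff_bijective.1
    rintro ⟨a, b⟩ ⟨c, d⟩ h
    obtain ⟨h2, rfl⟩ := Prod.mk.inj h
    exact Prod.ext ((hq b (op c b)).2.unique h2 rfl) rfl
  let F : Perm (S × S) := Equiv.ofBijective _ hF
  let G : Perm (S × S) := Equiv.ofBijective _ hG
  let t : Perm (S × S) := Equiv.prodComm S S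
  have key : F * G⁻¹ = G * t * F := by
    ext1 p
    have : G⁻¹ p = (op (op p.1 p.2) p.1, p.2) := by
      rw [Perm.inv_eq_iff_eq]
      exact Prod.ext (hE _ _).symm rfl
    rw [Perm.mul_apply, this]
    exact Prod.ext rfl (hE _ _)
  have hs : Perm.sign t = 1 := by
    have := congrArg Perm.sign key
    simp only [map_mul, Perm.sign_inv] at this
    rw [mul_comm (Perm.sign F), mul_assoc, mul_right_inj] at this
    exact mul_eq_right.1 this.symm
  rw [Perm.sign_of_pow_two_eq_one (by ext p <;> rfl)] at hs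
  have hc : Fintype.card (Function.fixedPoints t) = Fintype.card S := by
    symm
    refine Fintype.card_congr (Equiv.ofBijective (fun x => ⟨(x, x), rfl⟩) ⟨fun x y h => ?_, ?_⟩)
    · exact congrArg (fun z => z.1.1) h
    · rintro ⟨⟨a, b⟩, h⟩
      have e : b = a := congrArg Prod.fst h
      subst e
      exact ⟨b, rfl⟩
  rw [hc, Fintype.card_prod, neg_one_pow_eq_one_iff_even (by decide)] at hs
  generalize Fintype.card S = n at hs
  obtain ⟨k, hk⟩ := hs
  obtain ⟨q, r, hr, rfl⟩ : ∃ q r, r < 4 ∧ n = 4 * q + r := ⟨n / 4, n % 4, by omega, by omega⟩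
  have e : (4 * q + r) * (4 * q + r) = 16 * (q * q) + 8 * (q * r) + r * r := by ring
  rw [e] at hk
  interval_cases r <;> omega

end Pool.Agent.Results.MP_425159_co.Parity
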